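import Pool.Agent.H12.UCR.Stmts4

/-!
# Board `ucr`, row WEY: equidistribution of `n θ + c`
-/

set_option autoImplicit false

open MeasureTheory Filter Topology

namespace Pool.UCR

namespace WEY27

theorem integ (μ : Measure UnitAddCircle) [IsProbabilityMeasure μ] (g : C(UnitAddCircle, ℂ)) :
    Integrable (fun x => g x) μ := by
  have hc : Continuous fun x : UnitAddCircle => g x := by fun_prop
  exact hc.integrable_of_hasCompactSupport (HasCompactSupport.of_compactSpace _)

theorem bd (μ : Measure UnitAddCircle) [IsProbabilityMeasure μ] (g : C(UnitAddCircle, ℂ)) :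
    ‖∫ x, g x ∂μ‖ ≤ ‖g‖ := by
  have h := norm_integral_le_of_norm_le_const (μ := μ) (f := fun x => g x) (C := ‖g‖)
    (Eventually.of_forall fun x => g.norm_coe_le_norm _)
  simpa using h

/-- the averages -/
noncomputable def A (u : ℕ → UnitAddCircle) (N : ℕ) (g : C(UnitAddCircle, ℂ)) : ℂ :=
  (N : ℂ)⁻¹ * ∑ n ∈ Finset.range N, g (u n)

theorem A_add (u : ℕ → UnitAddCircle) (N : ℕ)
    (g g' : C(UnitAddCircle, ℂ)) : A u N (g + g') = A u N g + A u N g' := by
  rw [A, A, A, ← mul_add, ← Finset.sum_add_distrib]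
  rfl

theorem A_smul (u : ℕ → UnitAddCircle) (N : ℕ) (c : ℂ)
    (g : C(UnitAddCircle, ℂ)) : A u N (c • g) = c * A u N g := by
  have h : ∑ n ∈ Finset.range N, (c • g) (u n) = c * ∑ n ∈ Finset.range N, g (u n) := by
    rw [Finset.mul_sum]
    rfl
  rw [A, A, h]
  ring

theorem A_bd (u : ℕ → UnitAddCircle) (N : ℕ)
    (g : C(UnitAddCircle, ℂ)) : ‖A u N g‖ ≤ ‖g‖ := by
  rcases Nat.eq_zero_or_pos N with rfl | hN
  · simp [A]
  · have hN' : (0 : ℝ) < N := by exact_mod_cast hN
    rw [A, norm_mul, norm_inv, Complex.norm_natCast]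
    have h : ‖∑ n ∈ Finset.range N, g (u n)‖ ≤ N * ‖g‖ := by
      refine (norm_sum_le _ _).trans ?_
      refine (Finset.sum_le_sum fun n _ => g.norm_coe_le_norm (u n)).trans ?_
      rw [Finset.sum_const, Finset.card_range, nsmul_eq_mul]
    calc (N : ℝ)⁻¹ * ‖∑ n ∈ Finset.range N, g (u n)‖ ≤ (N : ℝ)⁻¹ * (N * ‖g‖) :=
          mul_le_mul_of_nonneg_left h (by positivity)
      _ = ‖g‖ := by
          field_simp

theorem prob : IsProbabilityMeasure (volume : Measure UnitAddCircle) :=
  ⟨UnitAddCircle.measure_univ⟩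

theorem four0 (k : ℤ) (hk : k ≠ 0) : ∫ x : UnitAddCircle, fourier k x ∂volume = 0 :=
  integral_eq_zero_of_add_right_eq_neg (fourier_add_half_inv_index hk one_pos)

theorem main (u : ℕ → UnitAddCircle)
    (hk : ∀ k : ℤ, k ≠ 0 → Tendsto (fun N => A u N (fourier k)) atTop (𝓝 0))
    (g : C(UnitAddCircle, ℂ)) :
    Tendsto (fun N => A u N g) atTop (𝓝 (∫ x, g x ∂(volume : Measure UnitAddCircle))) := by
  have := prob
  have hsp : ∀ P ∈ Submodule.span ℂ (Set.range (@fourier 1)),
      Tendsto (fun N => A u N P) atTop (𝓝 (∫ x, P x ∂(volume : Measure UnitAddCircle))) := by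
    intro P hP
    induction hP using Submodule.span_induction with
    | mem P hP =>
      obtain ⟨k, rfl⟩ := hP
      by_cases h0 : k = 0
      · subst h0
        have h1 : ∀ᶠ N in atTop, A u N (fourier 0) =
            ∫ x, fourier 0 x ∂(volume : Measure UnitAddCircle) := by
          filter_upwards [eventually_ge_atTop 1] with N hN
          have hN' : (N : ℂ) ≠ 0 := by
            have : N ≠ 0 := by omega
            exact_mod_cast this
          simp [A, hN']
        exact Tendsto.congr' (h1.mono fun N h => h.symm) tendsto_const_nhds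
      · rw [four0 k h0]
        exact hk k h0
    | zero =>
      have h1 : ∀ N, A u N (0 : C(UnitAddCircle, ℂ)) = 0 := fun N => by simp [A]
      simp [h1]
    | add P P' _ _ h1 h2 =>
      have h3 := h1.add h2
      have h4 : ∫ x, (P + P') x ∂(volume : Measure UnitAddCircle) =
          ∫ x, P x ∂(volume : Measure UnitAddCircle) +
            ∫ x, P' x ∂(volume : Measure UnitAddCircle) := by
        rw [← integral_add (integ (volume : Measure UnitAddCircle) P)
          (integ (volume : Measure UnitAddCircle) P')]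
        rfl
      rw [h4]
      refine h3.congr fun N => ?_
      rw [A_add]
    | smul c P _ h1 =>
      have h3 := h1.const_mul c
      have h4 : ∫ x, (c • P) x ∂(volume : Measure UnitAddCircle) =
          c * ∫ x, P x ∂(volume : Measure UnitAddCircle) := by
        rw [← integral_const_mul]
        rfl
      rw [h4]
      refine h3.congr fun N => ?_
      rw [A_smul]
  have hcl : g ∈ (Submodule.span ℂ (Set.range (@fourier 1))).topologicalClosure := by
    rw [span_fourier_closure_eq_top]
    trivial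
  have hcl' : g ∈ closure ((Submodule.span ℂ (Set.range (@fourier 1)) :
      Submodule ℂ C(UnitAddCircle, ℂ)) : Set C(UnitAddCircle, ℂ)) := hcl
  rw [Metric.tendsto_atTop]
  intro ε hε
  obtain ⟨P, hP, hgP⟩ := Metric.mem_closure_iff.1 hcl' (ε / 4) (by linarith)
  obtain ⟨N0, hN0⟩ := Metric.tendsto_atTop.1 (hsp P hP) (ε / 4) (by linarith)
  refine ⟨N0, fun N hN => ?_⟩
  have e1 := hN0 N hN
  rw [dist_eq_norm] at e1 hgP ⊢
  have e2 : A u N g = A u N (g - P) + A u N P := by
    rw [← A_add, sub_add_cancel]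
  have e3 := A_bd u N (g - P)
  have e4 : ∫ x, g x ∂(volume : Measure UnitAddCircle) =
      ∫ x, (g - P) x ∂(volume : Measure UnitAddCircle) +
        ∫ x, P x ∂(volume : Measure UnitAddCircle) := by
    rw [← integral_add (integ (volume : Measure UnitAddCircle) (g - P))
      (integ (volume : Measure UnitAddCircle) P)]
    congr 1
    funext x
    simp
  have e5 := bd (volume : Measure UnitAddCircle) (g - P)
  rw [e2, e4]
  generalize A u N (g - P) = a at e3
  generalize A u N P = b at e1
  generalize ∫ x, (g - P) x ∂(volume : Measure UnitAddCircle) = c at e5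
  generalize ∫ x, P x ∂(volume : Measure UnitAddCircle) = d at e1
  calc ‖a + b - (c + d)‖ = ‖a + (b - d) + -c‖ := by
        congr 1
        ring
    _ ≤ ‖a + (b - d)‖ + ‖-c‖ := norm_add_le _ _
    _ ≤ (‖a‖ + ‖b - d‖) + ‖c‖ := by
        rw [norm_neg]
        exact add_le_add (norm_add_le _ _) le_rfl
    _ < ε := by linarith

/-- geometric sums -/
theorem geo (θ c : ℝ) (hθ : Irrational θ) (k : ℤ) (hk : k ≠ 0) :
    Tendsto (fun N => A (fun n => ((n * θ + c : ℝ) : UnitAddCircle)) N (fourier k)) atTop (𝓝 0) := by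
  set z : ℂ := Complex.exp (2 * Real.pi * Complex.I * (k * θ)) with hz
  set w : ℂ := Complex.exp (2 * Real.pi * Complex.I * (k * c)) with hw
  have hpi : (2 * Real.pi * Complex.I : ℂ) ≠ 0 := Complex.two_pi_I_ne_zero
  have hz1 : z ≠ 1 := by
    intro h
    rw [hz, Complex.exp_eq_one_iff] at h
    obtain ⟨n, hn⟩ := h
    have h1 : ((k : ℂ) * θ) = n := by
      have h2 : (2 * Real.pi * Complex.I : ℂ) * (k * θ) = 2 * Real.pi * Complex.I * n := by
        rw [hn]
        ring
      exact mul_left_cancel₀ hpi h2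
    have h3 : (k : ℝ) * θ = n := by exact_mod_cast h1
    have h4 : Irrational ((k : ℝ) * θ) := hθ.intCast_mul hk
    rw [h3] at h4
    exact (Int.not_irrational n) h4
  have hzn : ‖z‖ = 1 := by
    have h1 : (2 * Real.pi * Complex.I * (k * θ) : ℂ) = ((2 * Real.pi * (k * θ) : ℝ) : ℂ) * Complex.I := by
      push_cast
      ring
    rw [hz, h1, Complex.norm_exp_ofReal_mul_I]
  have hwn : ‖w‖ = 1 := by
    have h1 : (2 * Real.pi * Complex.I * (k * c) : ℂ) = ((2 * Real.pi * (k * c) : ℝ) : ℂ) * Complex.I := by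
      push_cast
      ring
    rw [hw, h1, Complex.norm_exp_ofReal_mul_I]
  have hterm : ∀ n : ℕ, fourier k (((n * θ + c : ℝ)) : UnitAddCircle) = w * z ^ n := by
    intro n
    rw [fourier_coe_apply, hz, hw, ← Complex.exp_nat_mul, ← Complex.exp_add]
    congr 1
    push_cast
    ring
  have hsum : ∀ N : ℕ, ‖∑ n ∈ Finset.range N, fourier k (((n * θ + c : ℝ)) : UnitAddCircle)‖ ≤
      2 / ‖z - 1‖ := by
    intro N
    have h1 : ∑ n ∈ Finset.range N, fourier k (((n * θ + c : ℝ)) : UnitAddCircle) =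
        w * ((z ^ N - 1) / (z - 1)) := by
      rw [← geom_sum_eq hz1, Finset.mul_sum]
      exact Finset.sum_congr rfl fun n _ => hterm n
    rw [h1, norm_mul, hwn, one_mul, norm_div]
    refine div_le_div_of_nonneg_right ?_ (norm_nonneg _)
    refine (norm_sub_le _ _).trans ?_
    rw [norm_pow, hzn, one_pow, norm_one]
    norm_num
  rw [tendsto_zero_iff_norm_tendsto_zero]
  have hlim : Tendsto (fun N : ℕ => (N : ℝ)⁻¹ * (2 / ‖z - 1‖)) atTop (𝓝 0) := by
    have := (tendsto_inv_atTop_nhds_zero_nat (𝕜 := ℝ)).mul_const (2 / ‖z - 1‖)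
    rwa [zero_mul] at this
  refine squeeze_zero (fun N => norm_nonneg _) (fun N => ?_) hlim
  rw [A, norm_mul, norm_inv, Complex.norm_natCast]
  exact mul_le_mul_of_nonneg_left (hsum N) (by positivity)

end WEY27

open WEY27 in
theorem wey_thm : WEYS := by
  intro θ c hθ F
  have hfin := main (fun n => ((n * θ + c : ℝ) : UnitAddCircle)) (fun k hk => geo θ c hθ k hk)
    ⟨fun x => (F x : ℂ), by fun_prop⟩
  have hre := (Complex.continuous_re.tendsto _).comp hfin
  have e1 : (∫ x, (⟨fun x => (F x : ℂ), by fun_prop⟩ : C(UnitAddCircle, ℂ)) x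
      ∂(volume : Measure UnitAddCircle)).re = ∫ x, F x ∂(volume : Measure UnitAddCircle) := by
    have : ∫ x, (⟨fun x => (F x : ℂ), by fun_prop⟩ : C(UnitAddCircle, ℂ)) x
      ∂(volume : Measure UnitAddCircle) = ((∫ x, F x ∂(volume : Measure UnitAddCircle) : ℝ) : ℂ) :=
      integral_ofReal
    rw [this, Complex.ofReal_re]
  rw [e1] at hre
  refine hre.congr fun N => ?_
  have e2 : A (fun n => ((n * θ + c : ℝ) : UnitAddCircle)) N ⟨fun x => (F x : ℂ), by fun_prop⟩ =
      (((N : ℝ)⁻¹ * ∑ n ∈ Finset.range N, F (((n * θ + c : ℝ)) : UnitAddCircle) : ℝ) : ℂ) := by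
    rw [A]
    push_cast
    rfl
  rw [Function.comp_apply, e2, Complex.ofReal_re]

end Pool.UCR
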